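import Pool.Agent.LibSS99.Main
import Pool.Agent.LibSS99.Q

set_option autoImplicit false

namespace Pool.Agent.Old93fb11.SimpleSpectrum

open Finset Polynomial Module Pool.Agent.LibSS99

universe u v

/-- `S(E)`: the sum over the hyperplane `x_0 + ... + x_N = 0` in `E^(N+1)` of the product of
the `χ_i (Norm_{E/F} D_i(x_i))`. -/
noncomputable def convSum {F : Type} [Field F] {K : Type u} [Field K] {N : ℕ}
    (χ : Fin (N + 1) → MulChar F K) (D : Fin (N + 1) → F[X])
    (E : Type) [Field E] [Fintype E] [DecidableEq E] [Algebra F E] : K :=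
  ∑ x : Fin (N + 1) → E,
    if ∑ i, x i = 0 then ∏ i, χ i (Algebra.norm F (aeval (x i) (D i))) else 0

/-- See the claim file. -/
theorem result (F : Type) [Field F] [Fintype F] (l : ℕ) [Fact l.Prime]
    (K : Type u) [Field K] [CharZero K] [IsAlgClosed K] (N : ℕ)
    (χ : Fin (N + 1) → MulChar F K) (hχ1 : ∀ i, χ i ≠ 1)
    (D : Fin (N + 1) → F[X]) (hirr : ∀ i, Irreducible (D i))
    (hcop : ∀ i j, i ≠ j → Nat.Coprime (D i).natDegree (D j).natDegree)
    (hl : ∀ i, ¬ l ∣ (D i).natDegree) (hne : ∃ i, (D i).natDegree ≠ 1)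
    (hχ : ∀ i, (∃ e : ℕ, χ i ^ l ^ e = 1) ∨ (i = 0 ∧ (D 0).natDegree = 1))
    (W : Type v) [AddCommGroup W] [Module K W] [FiniteDimensional K W] (Φ : End K W)
    (hdim : finrank K W = ∏ i, (D i).natDegree - ∏ i, ((D i).natDegree - 1))
    (htr : ∀ (E : Type) [Field E] [Fintype E] [DecidableEq E] [Algebra F E],
      LinearMap.trace K W (Φ ^ finrank F E) = (-1) ^ N * convSum χ D E) :
    Φ.charpoly.roots.Nodup ∧ ⨆ μ, Φ.eigenspace μ = ⊤ := by
  classical
  suffices h : Φ.charpoly.roots.Nodup from ⟨h, diagonalisable_of_nodup Φ h⟩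
  obtain ⟨L, _, _, _, ⟨φ⟩⟩ := exists_reduction K l
  have hnL : ∀ i, ((D i).natDegree : L) ≠ 0 := fun i h =>
    hl i ((CharP.cast_eq_zero_iff L l _).1 h)
  -- it suffices to know the traces modulo `l`
  suffices hΩ : ∃ Ω : Finset L, (0 : L) ∉ Ω ∧ #Ω = finrank K W ∧
      ∀ (E : Type) [Field E] [Fintype E] [DecidableEq E] [Algebra F E],
        φ ((-1) ^ N * liftSum χ D E) = ∑ w ∈ Ω, w ^ finrank F E by
    obtain ⟨Ω, h0, hcard, hsum⟩ := hΩ
    obtain ⟨p, hp⟩ := CharP.exists F
    have : Fact p.Prime := ⟨CharP.char_is_prime F p⟩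
    have hex : ∀ r, 0 < r → ∃ s : integralClosure ℤ K,
        LinearMap.trace K W (Φ ^ r) = (s : K) ∧ φ s = ∑ w ∈ Ω, w ^ r := by
      intro r hr
      have : NeZero r := ⟨hr.ne'⟩
      let E := FiniteField.Extension F p r
      let _ : Fintype E := Fintype.ofFinite E
      have hE : finrank F E = r := FiniteField.finrank_extension F p r
      refine ⟨(-1) ^ N * liftSum χ D E, ?_, ?_⟩
      · have h1 := htr E
        rw [hE] at h1
        rw [h1]
        push_cast
        rw [coe_liftSum]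
        rfl
      · rw [hsum E, hE]
    choose! s hs using hex
    exact nodup_of_reduction Φ φ Ω h0 hcard s (fun r hr => (hs r hr).1) (fun r hr => (hs r hr).2)
  by_cases hχ0 : ∃ e : ℕ, χ 0 ^ l ^ e = 1
  · -- all characters have order a power of `l`
    have hall : ∀ i, ∃ e : ℕ, χ i ^ l ^ e = 1 := by
      intro i
      rcases hχ i with h | ⟨rfl, -⟩
      · exact h
      · exact hχ0
    obtain ⟨e, he⟩ : ∃ e : ℕ, ∀ i, χ i ^ l ^ e = 1 := by
      choose e he using hall
      refine ⟨∑ i, e i, fun i => ?_⟩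
      obtain ⟨c, hc⟩ := Nat.exists_eq_add_of_le
        (Finset.single_le_sum (f := e) (fun _ _ => Nat.zero_le _) (mem_univ i))
      rw [hc, pow_add, pow_mul, he i, one_pow]
    obtain ⟨Ω, h0, hΩ, hsum⟩ := exists_omega (L := L) (fun i => (D i).natDegree) hnL hcop
    refine ⟨Ω, h0, by rw [hΩ, hdim], ?_⟩
    intro E _ _ _ _
    rw [red_liftSum φ he (hχ1 0) D hirr hcop hne E, hsum]
  · -- `χ 0` is arbitrary and `D 0` is linear
    have hlin : (D 0).natDegree = 1 := by
      rcases hχ 0 with h | ⟨-, h⟩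
      · exact absurd h hχ0
      · exact h
    have hall : ∀ i : Fin N, ∃ e : ℕ, χ i.succ ^ l ^ e = 1 := by
      intro i
      rcases hχ i.succ with h | ⟨h, -⟩
      · exact h
      · exact absurd h (Fin.succ_ne_zero i)
    obtain ⟨e, he⟩ : ∃ e : ℕ, ∀ i : Fin N, χ i.succ ^ l ^ e = 1 := by
      choose e he using hall
      refine ⟨∑ i, e i, fun i => ?_⟩
      obtain ⟨c, hc⟩ := Nat.exists_eq_add_of_le
        (Finset.single_le_sum (f := e) (fun _ _ => Nat.zero_le _) (mem_univ i))
      rw [hc, pow_add, pow_mul, he i, one_pow]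
    obtain ⟨j, hj⟩ := hne
    have hj0 : j ≠ 0 := fun h => hj (h ▸ hlin)
    obtain ⟨i₀, rfl⟩ := Fin.exists_succ_eq.2 hj0
    have hF : (Fintype.card F : L) = 1 := card_cast_eq_one (he i₀) (hχ1 i₀.succ)
    let n := ∏ i : Fin N, (D i.succ).natDegree
    have hn : (n : L) ≠ 0 := by
      simp only [n, Nat.cast_prod]
      exact Finset.prod_ne_zero_iff.2 fun i _ => hnL i.succ
    have hcop' : ∀ i k : Fin N, i ≠ k →
        Nat.Coprime (D i.succ).natDegree (D k.succ).natDegree :=
      fun i k hik => hcop _ _ fun h => hik (Fin.succ_injective N h)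
    obtain ⟨c, hc, hsumc⟩ := exists_c (D := fun i : Fin N => D i.succ) (D 0)
      (fun i => hirr i.succ) hcop' (fun a => φ (chi (χ 0) a))
      (fun a n => by simp only [chi_pow, map_pow])
      (fun a ha => (chi_isUnit (χ 0) ha).map φ |>.ne_zero)
      (by
        intro E _ _ _ _ θ hθ h0
        have hmem := (mem_roo (fun i : Fin N => hirr i.succ)).1 hθ
        refine sum_ne_zero_of_coprime D hirr hcop ⟨i₀.succ, hj⟩
          (Fin.cons (-∑ i, θ i) θ : Fin (N + 1) → E) ?_ ?_
        · intro i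
          refine Fin.cases ?_ (fun i => ?_) i
          · rw [Fin.cons_zero]
            exact h0
          · rw [Fin.cons_succ]
            exact hmem i
        · rw [Fin.sum_univ_succ]
          simp)
    obtain ⟨Ω, h0, hΩ, hsum⟩ := exists_omega_root hn hc
    refine ⟨Ω, h0, ?_, ?_⟩
    · rw [hΩ, hdim, Fin.prod_univ_succ, Fin.prod_univ_succ, hlin]
      simp [n]
    · intro E _ _ _ _
      rw [red_liftSum_linear φ he D hirr hF hlin E, hsumc E, hsum]

end Pool.Agent.Old93fb11.SimpleSpectrum
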